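import Pool.Agent.Y766.R7.ZF
import Pool.Agent.Y766.R10.Stm

/-!
The off-diagonal terms for two smooth weights, with a power saved.
-/

set_option autoImplicit false

namespace Pool.Agent.Y406.R10

open Finset
open Pool.Agent.H442R2 Pool.Agent.H442R2.TSM Pool.Agent.H442R2.TSM.TaskTA
open Pool.Agent.H442R2.TSM.TaskQI
open Pool.Agent.Y766
open Pool.Agent.Y766.R3 (eu KL FF FH)
open Pool.Agent.Y766.R7 (HH poi_avg cmp_avg get_dataU)
open Pool.Agent.Y766.R10 (S_KEY S_OFF)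

/-! ### the Fourier transform along a progression -/

lemma FH_zmod {Q : ℕ} [NeZero Q] (F : ℤ → ℂ) (h : ℤ) :
    FH Q F h = ∑ z : ZMod Q, F ((z.val : ℕ) : ℤ) *
      (ZMod.stdAddChar : AddChar (ZMod Q) ℂ) ((h : ZMod Q) * z) := by
  rw [← Pool.Agent.Y766.R3.sum_range_zmod (fun z : ZMod Q => F ((z.val : ℕ) : ℤ) *
    (ZMod.stdAddChar : AddChar (ZMod Q) ℂ) ((h : ZMod Q) * z))]
  unfold FH
  refine sum_congr rfl fun n hn => ?_
  rw [mem_range] at hn
  rw [ZMod.val_natCast, Nat.mod_eq_of_lt hn]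
  congr 1
  have h1 := Pool.Agent.Y766.R3.eq_e (Q := Q) (h * n)
  push_cast at h1
  rw [h1]
  congr 1
  ring

lemma FH_sub {Q : ℕ} [NeZero Q] (F : ℤ → ℂ) (hF : ∀ n k : ℤ, F (n + Q * k) = F n) {E E' : ℤ}
    (hE : (E : ZMod Q) * (E' : ZMod Q) = 1) (c j : ℤ) :
    ‖FH Q (fun x => F (c + E * x)) j‖ = ‖FH Q F (j * E')‖ := by
  rw [FH_zmod, FH_zmod]
  have hval : ∀ n : ℤ, F (((n : ZMod Q).val : ℕ) : ℤ) = F n := by
    intro n
    have h1 : (((n : ZMod Q).val : ℕ) : ℤ) = n + Q * (-(n / Q)) := by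
      rw [ZMod.val_intCast]
      have := Int.emod_add_mul_ediv n Q
      linarith
    rw [h1, hF]
  have e1 : ∀ z : ZMod Q, F (c + E * ((z.val : ℕ) : ℤ)) =
      F ((((c : ZMod Q) + (E : ZMod Q) * z).val : ℕ) : ℤ) := by
    intro z
    rw [← hval (c + E * ((z.val : ℕ) : ℤ))]
    push_cast
    rw [ZMod.natCast_zmod_val]
  have e2 : ∑ z : ZMod Q, F (c + E * ((z.val : ℕ) : ℤ)) *
        (ZMod.stdAddChar : AddChar (ZMod Q) ℂ) ((j : ZMod Q) * z) =
      (ZMod.stdAddChar : AddChar (ZMod Q) ℂ) (-((j : ZMod Q) * E' * c)) *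
        ∑ w : ZMod Q, F ((w.val : ℕ) : ℤ) *
          (ZMod.stdAddChar : AddChar (ZMod Q) ℂ) (((j * E' : ℤ) : ZMod Q) * w) := by
    rw [mul_sum]
    refine sum_bij (fun z _ => (c : ZMod Q) + (E : ZMod Q) * z) (fun _ _ => mem_univ _) ?_ ?_ ?_
    · intro z _ z' _ h
      have h1 : (E : ZMod Q) * z = E * z' := add_left_cancel h
      calc z = ((E : ZMod Q) * E') * z := by rw [hE, one_mul]
        _ = E' * (E * z) := by ring
        _ = E' * (E * z') := by rw [h1]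
        _ = ((E : ZMod Q) * E') * z' := by ring
        _ = z' := by rw [hE, one_mul]
    · intro w _
      refine ⟨E' * (w - c), mem_univ _, ?_⟩
      calc (c : ZMod Q) + E * (E' * (w - c)) = c + ((E : ZMod Q) * E') * (w - c) := by ring
        _ = w := by rw [hE]; ring
    · intro z _
      rw [e1]
      have e3 : (ZMod.stdAddChar : AddChar (ZMod Q) ℂ) ((j : ZMod Q) * z) =
          (ZMod.stdAddChar : AddChar (ZMod Q) ℂ) (-((j : ZMod Q) * E' * c)) *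
          (ZMod.stdAddChar : AddChar (ZMod Q) ℂ)
            (((j * E' : ℤ) : ZMod Q) * ((c : ZMod Q) + (E : ZMod Q) * z)) := by
        rw [← AddChar.map_add_eq_mul]
        congr 1
        push_cast
        linear_combination (-(j : ZMod Q) * z) * hE
      rw [e3]
      ring
  rw [e2, norm_mul, AddChar.norm_apply, one_mul]

/-! ### the weights -/

lemma good_prod2 {g1 g2 : ℝ → ℂ} {B1 B2 : ℝ} (h1 : Good B1 g1) (h2 : Good B2 g2)
    (hs : ∀ x, x ∉ Set.Icc (6 / 5 : ℝ) 3 → g2 x = 0) {lam : ℝ} (hl0 : 0 ≤ lam) (hl : lam ≤ 4)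
    (a : ℝ) {b : ℝ} (hb0 : 0 ≤ b) (hb : b ≤ 1 / 5) :
    Good (25 * (B1 * B2)) (fun x => g1 (lam * x + a) * (starRingEnd ℂ) (g2 (x + b))) := by
  have hB1 : 0 ≤ B1 := (norm_nonneg _).trans (h1.b0 0)
  have hB2 : 0 ≤ B2 := (norm_nonneg _).trans (h2.b0 0)
  have hc := good_conj h2
  set k : ℝ → ℂ := fun x => (starRingEnd ℂ) (g2 x) with hk
  have hin : ∀ x, HasDerivAt (fun x : ℝ => lam * x + a) lam x := fun x => by
    have := ((hasDerivAt_id x).const_mul lam).add_const a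
    simpa using this
  have hlin : ContDiff ℝ ((⊤ : ℕ∞) : WithTop ℕ∞) (fun x : ℝ => lam * x + a) :=
    (contDiff_const.mul contDiff_id).add contDiff_const
  have u0 : ∀ x, HasDerivAt (fun x => g1 (lam * x + a)) ((lam : ℂ) * deriv g1 (lam * x + a)) x := by
    intro x
    have := (tst_hasDeriv h1.tst (lam * x + a)).scomp x (hin x)
    rw [Complex.real_smul] at this
    exact this
  have u1 : ∀ x, HasDerivAt (fun x => (lam : ℂ) * deriv g1 (lam * x + a))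
      ((lam : ℂ) * ((lam : ℂ) * deriv (deriv g1) (lam * x + a))) x := by
    intro x
    have := (tst_hasDeriv (tst_deriv h1.tst) (lam * x + a)).scomp x (hin x)
    rw [Complex.real_smul] at this
    exact this.const_mul _
  have v0 : ∀ x, HasDerivAt (fun x => k (x + b)) (deriv k (x + b)) x := fun x =>
    (tst_hasDeriv hc.tst (x + b)).comp_add_const x b
  have v1 : ∀ x, HasDerivAt (fun x => deriv k (x + b)) (deriv (deriv k) (x + b)) x := fun x =>
    (tst_hasDeriv (tst_deriv hc.tst) (x + b)).comp_add_const x b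
  have e1 : deriv (fun x => g1 (lam * x + a) * k (x + b)) = fun x =>
      (lam : ℂ) * deriv g1 (lam * x + a) * k (x + b) + g1 (lam * x + a) * deriv k (x + b) := by
    funext x
    exact ((u0 x).mul (v0 x)).deriv
  have e2 : deriv (deriv (fun x => g1 (lam * x + a) * k (x + b))) = fun x =>
      ((lam : ℂ) * ((lam : ℂ) * deriv (deriv g1) (lam * x + a)) * k (x + b) +
        (lam : ℂ) * deriv g1 (lam * x + a) * deriv k (x + b)) +
      ((lam : ℂ) * deriv g1 (lam * x + a) * deriv k (x + b) +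
        g1 (lam * x + a) * deriv (deriv k) (x + b)) := by
    rw [e1]
    funext x
    exact (((u1 x).mul (v0 x)).add ((u0 x).mul (v1 x))).deriv
  have nl : ‖(lam : ℂ)‖ ≤ 4 := by
    rw [Complex.norm_real, Real.norm_eq_abs, abs_of_nonneg hl0]
    exact hl
  have nu1 : ∀ x, ‖(lam : ℂ) * deriv g1 x‖ ≤ 4 * B1 := by
    intro x
    rw [norm_mul]
    exact mul_le_mul nl (h1.b1 x) (norm_nonneg _) (by norm_num)
  have nu2 : ∀ x, ‖(lam : ℂ) * ((lam : ℂ) * deriv (deriv g1) x)‖ ≤ 4 * (4 * B1) := by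
    intro x
    rw [norm_mul]
    refine mul_le_mul nl ?_ (norm_nonneg _) (by norm_num)
    rw [norm_mul]
    exact mul_le_mul nl (h1.b2 x) (norm_nonneg _) (by norm_num)
  have hBB : 0 ≤ B1 * B2 := mul_nonneg hB1 hB2
  have hmm : ∀ (x y : ℂ) (X Y : ℝ), ‖x‖ ≤ X → ‖y‖ ≤ Y → ‖x * y‖ ≤ X * Y := by
    intro x y X Y hx hy
    rw [norm_mul]
    exact mul_le_mul hx hy (norm_nonneg _) ((norm_nonneg _).trans hx)
  refine ⟨⟨(h1.tst.smooth.comp hlin).mul
    (hc.tst.smooth.comp (contDiff_id.add contDiff_const)), fun x hx => ?_⟩,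
    fun x => ?_, fun x => ?_, fun x => ?_⟩
  · have : g2 (x + b) = 0 := by
      apply hs
      intro h
      apply hx
      exact ⟨by linarith [h.1], by linarith [h.2]⟩
    rw [this, map_zero, mul_zero]
  · refine (hmm _ _ _ _ (h1.b0 _) (hc.b0 _)).trans ?_
    linarith
  · rw [e1]
    refine (norm_add_le _ _).trans ?_
    have f1 := hmm _ _ _ _ (nu1 (lam * x + a)) (hc.b0 (x + b))
    have f2 := hmm _ _ _ _ (h1.b0 (lam * x + a)) (hc.b1 (x + b))
    linarith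
  · rw [e2]
    refine (norm_add_le _ _).trans ?_
    refine (add_le_add (norm_add_le _ _) (norm_add_le _ _)).trans ?_
    have f1 := hmm _ _ _ _ (nu2 (lam * x + a)) (hc.b0 (x + b))
    have f2 := hmm _ _ _ _ (nu1 (lam * x + a)) (hc.b1 (x + b))
    have f3 := hmm _ _ _ _ (h1.b0 (lam * x + a)) (hc.b2 (x + b))
    linarith

/-! ### the main estimate -/

theorem off (H : HH) (hk : S_KEY) : S_OFF := by
  intro δ0 hδ0
  obtain ⟨δ, hδ, hδ1, hδδ⟩ : ∃ δ : ℝ, 0 < δ ∧ δ ≤ 1 / 1000 ∧ δ ≤ δ0 :=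
    ⟨min δ0 (1 / 1000), lt_min hδ0 (by norm_num), min_le_right _ _, min_le_left _ _⟩
  obtain ⟨C2', hC2', hkey⟩ := hk (δ / 100) (by positivity)
  obtain ⟨C3, hC3, hpoi⟩ := poi_avg
  refine ⟨δ / 20, by positivity, ?_⟩
  intro p hp hp7
  have hp2 : p ≠ 2 := by omega
  have hp0 : (0 : ℝ) < p := by exact_mod_cast hp.pos
  have hp1 : (1 : ℝ) ≤ p := by exact_mod_cast hp.one_le
  have hp1' : (1 : ℝ) < p := by exact_mod_cast hp.one_lt
  have hp4 : (4 : ℝ) ≤ p := by exact_mod_cast (by omega : 4 ≤ p)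
  set C2 : ℝ := C2' * (p : ℝ) ^ 7 with hC2d
  have hC2 : 0 < C2 := by positivity
  set A1 : ℝ := 2 * 289 * p * 4 with hA1
  set A2 : ℝ := (3 + 100 / δ) * Real.sqrt C2 * 4 * (4 * (p : ℝ) ^ 12) with hA2
  have hA10 : 0 ≤ A1 := by positivity
  have hA20 : 0 ≤ A2 := by positivity
  refine ⟨C3 * 25 * (A1 + A2) + 1, 1000, by positivity, ?_⟩
  intro ν m hν hm hmν hmδ χ hχ E c hE1 hpE hc g1 g2 B1 B2 hg1 hg2 hsupp N1 N2 hN1 hN2E hN2 hN1q S hS
  have hB1 : 0 ≤ B1 := (norm_nonneg _).trans (hg1.b0 0)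
  have hB2 : 0 ≤ B2 := (norm_nonneg _).trans (hg2.b0 0)
  set q : ℝ := (p : ℝ) ^ ν with hq
  have hq1 : 1 ≤ q := one_le_pow₀ hp1
  have hq0 : 0 < q := by linarith
  have : NeZero p := ⟨hp.ne_zero⟩
  have : NeZero (p ^ (ν - m)) := ⟨pow_ne_zero _ hp.ne_zero⟩
  have hE0 : (0 : ℝ) < E := by exact_mod_cast hE1
  have hN20 : 0 < N2 := by linarith
  set Y : ℝ := N2 / E with hY
  have hY0 : 0 < Y := by positivity
  have hYN : Y ≤ 4 * N1 := (div_le_self hN20.le (by exact_mod_cast hE1)).trans hN2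
  have hSl : ∀ l ∈ S, ¬ (p : ℤ) ∣ l := fun l hl => (mem_filter.1 (hS hl)).2
  have hper0 : ∀ l ∈ S, ∀ n k : ℤ, FF χ ((p : ℤ) ^ m * l) (n + (p ^ (ν - m) : ℕ) * k) =
      FF χ ((p : ℤ) ^ m * l) n := fun l hl =>
    (Pool.Agent.Y766.R3.get_data H.phi (u := ν - 3 * m) hp hp2 hm hmν (by omega) (by omega) hχ
      (hSl l hl)).1
  set F : ℤ → ℤ → ℂ := fun l x => FF χ ((p : ℤ) ^ m * l) (c l + E * x) with hF
  have hper : ∀ l ∈ S, ∀ n k : ℤ, F l (n + (p ^ (ν - m) : ℕ) * k) = F l n := by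
    intro l hl n k
    simp only [hF]
    have : c l + (E : ℤ) * (n + (p ^ (ν - m) : ℕ) * k) =
        (c l + E * n) + (p ^ (ν - m) : ℕ) * (E * k) := by ring
    rw [this, hper0 l hl]
  set w : ℤ → ℝ → ℂ := fun l x => g1 (N2 / N1 * x + ((c l : ℝ) + (p : ℝ) ^ m * l) / N1) *
    (starRingEnd ℂ) (g2 (x + (c l : ℝ) / N2)) with hw
  have hgood : ∀ l ∈ S, Good (25 * (B1 * B2)) (w l) := by
    intro l _
    have hc1 : (0 : ℝ) ≤ c l := by exact_mod_cast (hc l).1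
    have hc2 : (c l : ℝ) ≤ E := by exact_mod_cast (hc l).2.le
    refine good_prod2 hg1 hg2 hsupp (by positivity) ?_ _ (by positivity) ?_
    · rw [div_le_iff₀ hN1]; linarith
    · rw [div_le_iff₀ hN20]; linarith
  have hsum : ∀ l ∈ S, ‖∑ x ∈ Icc 1 ⌊4 * (N2 / E)⌋₊, FF χ ((p : ℤ) ^ m * l) (c l + E * x) *
      (g1 (((c l + E * x + (p : ℤ) ^ m * l : ℤ) : ℝ) / N1) *
        (starRingEnd ℂ) (g2 (((c l + E * x : ℤ) : ℝ) / N2)))‖ =
      ‖∑ n ∈ Icc 1 ⌊4 * Y⌋₊, F l (n : ℤ) * w l ((n : ℝ) / Y)‖ := by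
    intro l _
    congr 1
    refine sum_congr rfl fun x _ => ?_
    simp only [hF, hw]
    have e1 : ((c l + E * x + (p : ℤ) ^ m * l : ℤ) : ℝ) / N1 =
        N2 / N1 * ((x : ℝ) / Y) + ((c l : ℝ) + (p : ℝ) ^ m * l) / N1 := by
      rw [hY]
      push_cast
      field_simp
      ring
    have e2 : ((c l + E * x : ℤ) : ℝ) / N2 = (x : ℝ) / Y + (c l : ℝ) / N2 := by
      rw [hY]
      push_cast
      field_simp
      ring
    rw [e1, e2]
  rw [sum_congr rfl hsum]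
  have hmain := fun (K : ℕ) (hK : 0 < K) (U : ℤ → ℤ → ℝ) (V : ℝ) (hV : 0 ≤ V) h1 h2 =>
    hpoi (p ^ (ν - m)) ℤ S F hper K hK U V hV h1 h2 w (25 * (B1 * B2)) (by positivity) hgood Y hY0
  have hqη : 0 < q ^ (-(δ / 20)) := by positivity
  -- the final form
  have hfin : ∀ (A X : ℝ), A ≤ A1 + A2 → X ≤ A * (N1 * q ^ (-(δ / 20))) →
      C3 * (25 * (B1 * B2)) * X ≤
        (C3 * 25 * (A1 + A2) + 1) * (B1 * B2) * N1 * q ^ (-(δ / 20)) := by
    intro A X hA hX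
    have hBB : 0 ≤ B1 * B2 := mul_nonneg hB1 hB2
    calc C3 * (25 * (B1 * B2)) * X ≤
          C3 * (25 * (B1 * B2)) * ((A1 + A2) * (N1 * q ^ (-(δ / 20)))) := by
          refine mul_le_mul_of_nonneg_left (hX.trans ?_) (by positivity)
          exact mul_le_mul_of_nonneg_right hA (by positivity)
      _ = (C3 * 25 * (A1 + A2)) * ((B1 * B2) * N1 * q ^ (-(δ / 20))) := by ring
      _ ≤ (C3 * 25 * (A1 + A2) + 1) * ((B1 * B2) * N1 * q ^ (-(δ / 20))) := by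
          refine mul_le_mul_of_nonneg_right (by linarith) (by positivity)
      _ = _ := by ring
  set M : ℕ := ⌊4 * N1⌋₊ with hM
  have hM4 : (M : ℝ) ≤ 4 * N1 := Nat.floor_le (by positivity)
  set Yn : ℕ := M / p ^ m with hYn
  have hYp : (p : ℝ) ^ m * Yn ≤ 4 * N1 := by
    have h1 : p ^ m * (M / p ^ m) ≤ M := Nat.mul_div_le M (p ^ m)
    calc (p : ℝ) ^ m * Yn = ((p ^ m * (M / p ^ m) : ℕ) : ℝ) := by push_cast; rw [hYn]
      _ ≤ M := by exact_mod_cast h1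
      _ ≤ 4 * N1 := hM4
  have hScard : (S.card : ℝ) ≤ Yn := by
    have h0 : S.card ≤ ((Ico (1 : ℤ) (1 + (Yn : ℕ))).filter (fun l => ¬ (p : ℤ) ∣ l)).card :=
      card_le_card hS
    have h1 : S.card ≤ (Ico (1 : ℤ) (1 + (Yn : ℕ))).card := h0.trans (card_filter_le _ _)
    rw [Int.card_Ico, add_sub_cancel_left, Int.toNat_natCast] at h1
    exact_mod_cast h1
  have hpm1 : 1 ≤ (p : ℝ) ^ m := one_le_pow₀ hp1
  rcases Nat.eq_zero_or_pos Yn with hY0' | hY1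
  · have h0 : S = ∅ := by
      rw [← subset_empty]
      refine hS.trans ?_
      rw [hY0']
      simp
    rw [h0, sum_empty]
    positivity
  have hY1' : (1 : ℝ) ≤ Yn := by exact_mod_cast hY1
  have hpm4 : (p : ℝ) ^ m ≤ 4 * N1 := by
    calc (p : ℝ) ^ m = (p : ℝ) ^ m * 1 := (mul_one _).symm
      _ ≤ (p : ℝ) ^ m * Yn := by gcongr
      _ ≤ _ := hYp
  -- integers
  set e : ℕ := ⌈δ * ν⌉₊ with he
  have hν0 : (1000 : ℝ) ≤ ν := by exact_mod_cast hν
  have he1 : δ * ν ≤ e := Nat.le_ceil _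
  have he2 : (e : ℝ) < δ * ν + 1 := Nat.ceil_lt_add_one (by positivity)
  have he0 : 1 ≤ e := Nat.one_le_iff_ne_zero.2 (Nat.ceil_pos.2 (by positivity)).ne'
  have hmδ' : 19 / 58 * (ν : ℝ) + δ * ν ≤ m := by
    have : δ * ν ≤ δ0 * ν := by gcongr
    linarith
  have I1 : 19 * ν + 58 * e ≤ 58 * m + 58 := by
    have : (19 : ℝ) * ν + 58 * e ≤ 58 * m + 58 := by linarith
    exact_mod_cast this
  have I2 : 1000 * e ≤ ν + 1000 := by
    have h1 : δ * ν ≤ 1 / 1000 * ν := by gcongr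
    have : (1000 : ℝ) * e ≤ ν + 1000 := by linarith
    exact_mod_cast this
  set j : ℕ := Nat.log p Yn with hj
  have hj1 : p ^ j ≤ Yn := Nat.pow_log_le_self p (by omega)
  have hj2 : Yn < p ^ (j + 1) := Nat.lt_pow_succ_log_self hp.one_lt Yn
  have hNY : 4 * N1 ≤ (p : ℝ) ^ (m + (j + 1)) := by
    have h1 : M < p ^ m * (Yn + 1) := by
      rw [hYn]
      exact Nat.lt_mul_div_succ M (pow_pos hp.pos m)
    have h2 : 4 * N1 < M + 1 := Nat.lt_floor_add_one _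
    have h3 : (M : ℝ) + 1 ≤ (p : ℝ) ^ m * (Yn + 1) := by exact_mod_cast h1
    have h4 : ((Yn : ℝ) + 1) ≤ (p : ℝ) ^ (j + 1) := by exact_mod_cast hj2
    rw [pow_add]
    have h5 : (p : ℝ) ^ m * (Yn + 1) ≤ (p : ℝ) ^ m * (p : ℝ) ^ (j + 1) := by gcongr
    linarith
  have I3 : 20 * (m + j) ≤ 10 * ν + e + 20 := by
    have h1 : (p : ℝ) ^ ((m + j : ℕ) : ℝ) ≤ (p : ℝ) ^ (1 + (ν : ℝ) * (1 / 2 + δ / 20)) := by
      rw [Real.rpow_natCast, Real.rpow_add hp0, Real.rpow_one, Real.rpow_mul hp0.le,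
        Real.rpow_natCast, pow_add]
      have h2 : (p : ℝ) ^ j ≤ Yn := by exact_mod_cast hj1
      calc (p : ℝ) ^ m * (p : ℝ) ^ j ≤ (p : ℝ) ^ m * Yn := by gcongr
        _ ≤ 4 * N1 := hYp
        _ ≤ p * q ^ (1 / 2 + δ / 20) := by gcongr
    have h2 := (Real.rpow_le_rpow_left_iff hp1').1 h1
    have h3 : (20 : ℝ) * ((m + j : ℕ) : ℝ) ≤ 10 * ν + e + 20 := by
      have h4 : (ν : ℝ) * (1 / 2 + δ / 20) = ν / 2 + δ * ν / 20 := by ring
      rw [h4] at h2
      linarith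
    exact_mod_cast h3
  rcases lt_or_ge ((ν : ℝ) + 3 * (δ * ν)) (3 * m) with hreg | hreg
  · -- regime (i)
    have h3m : ν < 3 * m := by
      have : (ν : ℝ) < 3 * m := by
        have : 0 ≤ δ * ν := by positivity
        linarith
      exact_mod_cast this
    obtain ⟨Ψ, A, L, hΨ1, hΨ2, hA', hL, hFH⟩ :=
      get_dataU H.phi (u := 0) hp hp2 hm hmν (by omega) (by omega) hχ
    obtain ⟨k1, -, -⟩ := H.klo p (ν - m) 0 hp hp2 (by omega) (by omega) Ψ hΨ1 hΨ2 A L hA' hL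
    obtain ⟨E', hE'⟩ : ∃ E' : ℤ, (((E : ℤ)) : ZMod (p ^ (ν - m))) * (E' : ZMod (p ^ (ν - m))) = 1 := by
      have hu : IsUnit (((E : ℤ)) : ZMod (p ^ (ν - m))) := by
        rw [Pool.Agent.Y766.R3.isUnit_int hp (by omega)]
        intro h
        exact hpE (by exact_mod_cast h)
      obtain ⟨b, hb⟩ := hu.exists_right_inv
      refine ⟨((b.val : ℕ) : ℤ), ?_⟩
      rw [← hb]
      congr 1
      push_cast
      rw [ZMod.natCast_zmod_val]
    set W : ℝ := 2 * (p : ℝ) ^ ((ν - m + 1) / 2) with hW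
    have hW0 : 0 ≤ W := by positivity
    have hb1 : ∀ l ∈ S, ∀ h : ℤ, ‖FH (p ^ (ν - m)) (F l) h‖ ≤ W := by
      intro l hl h
      have e1 := FH_sub (FF χ ((p : ℤ) ^ m * l)) (hper0 l hl) hE' (c l) h
      simp only [hF]
      rw [e1]
      obtain ⟨d, hd⟩ := hFH l (hSl l hl)
      rw [hd, norm_mul, Pool.Agent.Y766.R3.e_norm, one_mul]
      exact k1 _
    refine (hmain 1 one_pos (fun _ _ => W) (S.card * W) (by positivity) (fun l hl h J hJ => by
      interval_cases J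
      · simpa using hW0
      · rw [sum_range_one]; exact hb1 l hl _) (fun h => by
      rw [sum_const, nsmul_eq_mul])).trans ?_
    rw [mul_assoc]
    refine hfin A1 _ (by linarith) ?_
    -- `p^((r+1)/2)`
    have f1 : (p : ℝ) ^ ((ν - m + 1) / 2) ≤ p * (p : ℝ) ^ m * q ^ (-(3 * δ / 2)) := by
      have e1 : p * (p : ℝ) ^ m * q ^ (-(3 * δ / 2)) =
          (p : ℝ) ^ (1 + (m : ℝ) + (ν : ℝ) * (-(3 * δ / 2))) := by
        rw [Real.rpow_add hp0, Real.rpow_add hp0, Real.rpow_one, Real.rpow_natCast,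
          Real.rpow_mul hp0.le, Real.rpow_natCast]
      rw [e1, ← Real.rpow_natCast]
      refine Real.rpow_le_rpow_of_exponent_le hp1 ?_
      have h6 : 2 * (((ν - m + 1) / 2 : ℕ) : ℝ) + m ≤ ν + 1 := by
        exact_mod_cast (by omega : 2 * ((ν - m + 1) / 2) + m ≤ ν + 1)
      have h7 : (ν : ℝ) * (-(3 * δ / 2)) = -(3 * (δ * ν) / 2) := by ring
      rw [h7]
      linarith
    -- `Y / Q`
    have hQ0 : (0 : ℝ) < (p : ℝ) ^ (ν - m) := by positivity
    have f2 : Y / ((p ^ (ν - m) : ℕ) : ℝ) ≤ 16 * q ^ (2 * (δ / 20)) := by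
      push_cast
      rw [div_le_iff₀ hQ0]
      have e1 : q = (p : ℝ) ^ (ν - m) * (p : ℝ) ^ m := by
        rw [hq, ← pow_add]
        congr 1
        omega
      have e2 : (q ^ (1 / 2 + δ / 20 : ℝ)) ^ 2 = q * q ^ (2 * (δ / 20)) := by
        rw [← Real.rpow_natCast, ← Real.rpow_mul hq0.le]
        nth_rewrite 2 [← Real.rpow_one q]
        rw [← Real.rpow_add hq0]
        congr 1
        push_cast
        ring
      have e3 : (4 * N1) * (p : ℝ) ^ m ≤ 16 * (q * q ^ (2 * (δ / 20))) := by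
        calc (4 * N1) * (p : ℝ) ^ m ≤ (4 * N1) * (4 * N1) := by gcongr
          _ = 16 * N1 ^ 2 := by ring
          _ ≤ 16 * (q ^ (1 / 2 + δ / 20 : ℝ)) ^ 2 := by gcongr
          _ = _ := by rw [e2]
      have e4 : (4 * N1) * (p : ℝ) ^ m ≤ (16 * q ^ (2 * (δ / 20)) * (p : ℝ) ^ (ν - m)) *
          (p : ℝ) ^ m := by
        refine e3.trans (le_of_eq ?_)
        have : 16 * q ^ (2 * (δ / 20)) * (p : ℝ) ^ (ν - m) * (p : ℝ) ^ m =
            16 * (((p : ℝ) ^ (ν - m) * (p : ℝ) ^ m) * q ^ (2 * (δ / 20))) := by ring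
        rw [this, ← e1]
      exact hYN.trans (le_of_mul_le_mul_right e4 (by positivity))
    have hq2 : 1 ≤ q ^ (2 * (δ / 20)) := Real.one_le_rpow hq1 (by positivity)
    have f3 : (1 + ((1 : ℕ) : ℝ) * Y / ((p ^ (ν - m) : ℕ) : ℝ)) ^ 2 ≤
        289 * q ^ (4 * (δ / 20)) := by
      have e1 : 1 + ((1 : ℕ) : ℝ) * Y / ((p ^ (ν - m) : ℕ) : ℝ) ≤ 17 * q ^ (2 * (δ / 20)) := by
        rw [Nat.cast_one, one_mul]
        linarith
      have e2 : (q ^ (2 * (δ / 20))) ^ 2 = q ^ (4 * (δ / 20)) := by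
        rw [← Real.rpow_natCast, ← Real.rpow_mul hq0.le]
        congr 1
        push_cast
        ring
      calc _ ≤ (17 * q ^ (2 * (δ / 20))) ^ 2 := by gcongr
        _ = 289 * (q ^ (2 * (δ / 20))) ^ 2 := by ring
        _ = _ := by rw [e2]
    have f4 : q ^ (-(3 * δ / 2)) * q ^ (4 * (δ / 20)) ≤ q ^ (-(δ / 20)) := by
      rw [← Real.rpow_add hq0]
      exact Real.rpow_le_rpow_of_exponent_le hq1 (by linarith)
    calc (S.card * W / ((1 : ℕ) : ℝ)) * (1 + ((1 : ℕ) : ℝ) * Y / ((p ^ (ν - m) : ℕ) : ℝ)) ^ 2 ≤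
          (Yn * (2 * (p * (p : ℝ) ^ m * q ^ (-(3 * δ / 2))))) * (289 * q ^ (4 * (δ / 20))) := by
          refine mul_le_mul ?_ f3 (by positivity) (by positivity)
          rw [Nat.cast_one, div_one, hW]
          gcongr
      _ = (2 * 289 * p) * ((p : ℝ) ^ m * Yn) * (q ^ (-(3 * δ / 2)) * q ^ (4 * (δ / 20))) := by ring
      _ ≤ (2 * 289 * p) * (4 * N1) * q ^ (-(δ / 20)) := by gcongr
      _ = _ := by rw [hA1]; ring
  · -- regime (ii)
    have I4 : 3 * m ≤ ν + 3 * e := by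
      have : (3 : ℝ) * m ≤ ν + 3 * e := by linarith
      exact_mod_cast this
    obtain ⟨s0, hs0⟩ : ∃ s0, s0 = ν - 3 * m := ⟨_, rfl⟩
    set s : ℕ := s0 + e with hs
    set κ : ℕ := (ν - m + 11 * s - j + 3) / 4 with hκ
    have hκ1 : ν - m + 11 * s ≤ 4 * κ + j := by omega
    have hκ2 : 4 * κ + j ≤ ν - m + 11 * s + 3 := by omega
    have c1 : 2 * s0 + 1 ≤ ν - m := by omega
    have c2 : 4 * s + 1 ≤ κ := by omega
    have c3 : s0 ≤ κ - 4 * s := by omega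
    have c4 : ν - m ≤ 7 * (κ - 4 * s) := by omega
    have c5 : 3 * κ ≤ ν - m + 3 * s := by omega
    have c6 : ν - m + 7 * s - 3 * κ + 4 * s ≤ j + κ := by omega
    have c7 : κ + (m + (j + 1)) ≤ ν - m + 6 := by omega
    have c8 : κ ≤ ν := by omega
    have c9 : ν - m + e ≤ s + 2 * m := by omega
    have hK1 : 1 ≤ p ^ κ := Nat.one_le_pow _ _ hp.pos
    have hM2 := fun (h : ℤ) (b : ℕ) => hkey p hp hp7 ν m s0 s κ Yn hm hmν (by omega) c1 (by omega)
      (by omega) c2 c3 c4 c5 hY1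
      (by
        calc p ^ (ν - m + 7 * s - 3 * κ + 4 * s) ≤ p ^ (j + κ) := Nat.pow_le_pow_right hp.pos c6
          _ = p ^ j * p ^ κ := pow_add _ _ _
          _ ≤ Yn * p ^ κ := Nat.mul_le_mul_right _ hj1) χ hχ (E : ℤ)
      (fun h => hpE (by exact_mod_cast h)) c h ((b : ℝ) / (p ^ κ : ℕ))
    rw [← hC2d, ← hq] at hM2
    set M2 : ℝ := C2 * Yn * ((p : ℝ) ^ κ) ^ 2 * ((p : ℝ) ^ (ν - m) / (p : ℝ) ^ s) *
      q ^ (2 * (δ / 100)) with hM2d
    obtain ⟨U, hU1, hU2⟩ := cmp_avg H.cmp S (fun l j => FH (p ^ (ν - m)) (F l) j)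
      hK1 (M2 := M2) (fun h b => by
        refine le_trans ?_ (hM2 h b)
        refine (sum_le_sum_of_subset_of_nonneg hS fun _ _ _ => by positivity).trans (le_of_eq ?_)
        refine sum_congr rfl fun l _ => ?_
        congr 2
        refine sum_congr rfl fun k _ => ?_
        congr 2
        ring)
    set V : ℝ := (3 + Real.log (p ^ κ : ℕ)) * Real.sqrt (S.card * M2) with hV
    have hlogK : 0 ≤ Real.log ((p ^ κ : ℕ) : ℝ) := Real.log_nonneg (by exact_mod_cast hK1)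
    have hV0 : 0 ≤ V := by positivity
    refine (hmain (p ^ κ) (by omega) U V hV0 (fun l _ h J hJ => hU1 l h J hJ) hU2).trans ?_
    rw [mul_assoc]
    refine hfin A2 _ (by linarith) ?_
    -- the size of `V`
    set D : ℝ := q ^ (δ / 100) with hD
    have hD1 : 1 ≤ D := Real.one_le_rpow hq1 (by positivity)
    have hqε : q ^ (2 * (δ / 100)) = D ^ 2 := by
      rw [hD, ← Real.rpow_natCast (q ^ (δ / 100)), ← Real.rpow_mul hq0.le]
      congr 1
      push_cast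
      ring
    set G : ℝ := q ^ (-(δ / 2)) with hG
    have hG0 : 0 < G := by positivity
    have hG2 : (p : ℝ) ^ (ν - m) / (p : ℝ) ^ s ≤ ((p : ℝ) ^ m * G) ^ 2 := by
      rw [div_le_iff₀ (by positivity)]
      have e1 : G ^ 2 = q ^ (-δ) := by
        rw [hG, ← Real.rpow_natCast, ← Real.rpow_mul hq0.le]
        congr 1
        push_cast
        ring
      have e2 : (p : ℝ) ^ (ν - m) * q ^ δ ≤ (p : ℝ) ^ s * (p : ℝ) ^ (2 * m) := by
        have h1 : q ^ δ ≤ (p : ℝ) ^ e := by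
          rw [hq, ← Real.rpow_natCast, ← Real.rpow_natCast, ← Real.rpow_mul hp0.le]
          refine Real.rpow_le_rpow_of_exponent_le hp1 ?_
          linarith
        calc (p : ℝ) ^ (ν - m) * q ^ δ ≤ (p : ℝ) ^ (ν - m) * (p : ℝ) ^ e := by gcongr
          _ = (p : ℝ) ^ (ν - m + e) := (pow_add _ _ _).symm
          _ ≤ (p : ℝ) ^ (s + 2 * m) := pow_le_pow_right₀ hp1 c9
          _ = _ := pow_add _ _ _
      have e3 : q ^ (-δ) * q ^ δ = 1 := by
        rw [← Real.rpow_add hq0, neg_add_cancel, Real.rpow_zero]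
      have e4 : 0 < q ^ (-δ) := by positivity
      calc (p : ℝ) ^ (ν - m) = q ^ (-δ) * ((p : ℝ) ^ (ν - m) * q ^ δ) := by
            rw [mul_left_comm, e3, mul_one]
        _ ≤ q ^ (-δ) * ((p : ℝ) ^ s * (p : ℝ) ^ (2 * m)) := by gcongr
        _ = ((p : ℝ) ^ m * G) ^ 2 * (p : ℝ) ^ s := by
            rw [mul_pow, e1, ← pow_mul, mul_comm m 2]
            ring
    have hsqrt : Real.sqrt (S.card * M2) ≤
        Real.sqrt C2 * (Yn * (p : ℝ) ^ κ * ((p : ℝ) ^ m * G) * D) := by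
      apply Real.sqrt_le_iff.2
      refine ⟨by positivity, ?_⟩
      rw [mul_pow, Real.sq_sqrt hC2.le]
      calc (S.card : ℝ) * M2 ≤ Yn * M2 := by
            have : 0 ≤ M2 := by positivity
            gcongr
        _ ≤ Yn * (C2 * Yn * ((p : ℝ) ^ κ) ^ 2 * ((p : ℝ) ^ m * G) ^ 2 * D ^ 2) := by
            rw [hM2d, hqε]
            gcongr
        _ = _ := by ring
    have hlog : 3 + Real.log ((p ^ κ : ℕ) : ℝ) ≤ (3 + 100 / δ) * D := by
      have h1 : Real.log ((p ^ κ : ℕ) : ℝ) ≤ Real.log q := by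
        apply Real.log_le_log (by exact_mod_cast hK1)
        rw [hq]
        push_cast
        exact pow_le_pow_right₀ hp1 c8
      have h2 : Real.log q ≤ q ^ (δ / 100) / (δ / 100) := Real.log_le_rpow_div hq0.le (by positivity)
      rw [← hD] at h2
      have h3 : D / (δ / 100) = 100 / δ * D := by field_simp
      rw [h3] at h2
      linarith
    have hVle : V / ((p ^ κ : ℕ) : ℝ) ≤
        (3 + 100 / δ) * Real.sqrt C2 * (D ^ 2 * G) * ((p : ℝ) ^ m * Yn) := by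
      have hk0 : (0 : ℝ) < ((p ^ κ : ℕ) : ℝ) := by exact_mod_cast hK1
      rw [div_le_iff₀ hk0]
      calc V ≤ ((3 + 100 / δ) * D) *
            (Real.sqrt C2 * (Yn * (p : ℝ) ^ κ * ((p : ℝ) ^ m * G) * D)) := by
            rw [hV]
            exact mul_le_mul hlog hsqrt (Real.sqrt_nonneg _) (by positivity)
        _ = _ := by push_cast; ring
    -- the size of `K Y / Q`
    have hX : ((p ^ κ : ℕ) : ℝ) * Y / ((p ^ (ν - m) : ℕ) : ℝ) ≤ (p : ℝ) ^ 6 := by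
      have hr0 : (0 : ℝ) < ((p ^ (ν - m) : ℕ) : ℝ) := by
        exact_mod_cast pow_pos hp.pos _
      rw [div_le_iff₀ hr0]
      push_cast
      calc (p : ℝ) ^ κ * Y ≤ (p : ℝ) ^ κ * (p : ℝ) ^ (m + (j + 1)) := by
            gcongr
            exact hYN.trans hNY
        _ = (p : ℝ) ^ (κ + (m + (j + 1))) := (pow_add _ _ _).symm
        _ ≤ (p : ℝ) ^ (ν - m + 6) := pow_le_pow_right₀ hp1 c7
        _ = _ := by rw [pow_add, mul_comm]
    have hX2 : (1 + ((p ^ κ : ℕ) : ℝ) * Y / ((p ^ (ν - m) : ℕ) : ℝ)) ^ 2 ≤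
        4 * (p : ℝ) ^ 12 := by
      have h1 : 1 ≤ (p : ℝ) ^ 6 := one_le_pow₀ hp1
      have h2 : 1 + ((p ^ κ : ℕ) : ℝ) * Y / ((p ^ (ν - m) : ℕ) : ℝ) ≤ 2 * (p : ℝ) ^ 6 := by
        linarith
      calc _ ≤ (2 * (p : ℝ) ^ 6) ^ 2 := by gcongr
        _ = _ := by ring
    have hDG : D ^ 2 * G ≤ q ^ (-(δ / 20)) := by
      rw [← hqε, hG, ← Real.rpow_add hq0]
      exact Real.rpow_le_rpow_of_exponent_le hq1 (by linarith)
    calc V / ((p ^ κ : ℕ) : ℝ) * (1 + ((p ^ κ : ℕ) : ℝ) * Y / ((p ^ (ν - m) : ℕ) : ℝ)) ^ 2 ≤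
          ((3 + 100 / δ) * Real.sqrt C2 * q ^ (-(δ / 20)) * (4 * N1)) * (4 * (p : ℝ) ^ 12) := by
          refine mul_le_mul (hVle.trans ?_) hX2 (by positivity) (by positivity)
          gcongr
      _ = _ := by rw [hA2]; ring

end Pool.Agent.Y406.R10
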